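import Pool.Agent.H24.PER.PV

/-! # Module P1: an `F`-basis of `D` gives an `L`-basis of `End_L(D)` -/

set_option autoImplicit false

namespace PER
open Module

variable {F D L : Type} [Field F] [DivisionRing D] [Algebra F D] [Field L] [Algebra F L]

open scoped Classical in
theorem P1_aux (hc : ∀ x : D, (∀ y, x * y = y * x) → ∃ f : F, algebraMap F D f = x)
    {m : ℕ} (d : Fin m → D) (hd : LinearIndependent F d) :
    ∀ (N : ℕ) (e : Fin m → D), (Finset.univ.filter (fun i => e i ≠ 0)).card = N →
      (∀ x : D, ∑ i, d i * x * e i = 0) → ∀ i, e i = 0 := by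
  intro N
  induction N using Nat.strong_induction_on with
  | _ N ih =>
    intro e hN h
    by_contra hne
    push Not at hne
    obtain ⟨i₀, hi₀⟩ := hne
    -- normalise
    have h1 : ∀ x : D, ∑ i, d i * x * (e i * (e i₀)⁻¹) = 0 := by
      intro x
      have := congrArg (fun t => t * (e i₀)⁻¹) (h x)
      simp only [Finset.sum_mul, zero_mul] at this
      rw [← this]
      exact Finset.sum_congr rfl (fun i _ => (mul_assoc _ _ _).symm)
    -- commutators
    have h2 : ∀ y x : D, ∑ i, d i * x * (y * (e i * (e i₀)⁻¹) - (e i * (e i₀)⁻¹) * y) = 0 := by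
      intro y x
      have ha := h1 (x * y)
      have hb := congrArg (fun t => t * y) (h1 x)
      simp only [Finset.sum_mul, zero_mul] at hb
      have hsub : ∑ i, d i * x * (y * (e i * (e i₀)⁻¹) - (e i * (e i₀)⁻¹) * y) =
          ∑ i, d i * (x * y) * (e i * (e i₀)⁻¹) - ∑ i, d i * x * (e i * (e i₀)⁻¹) * y := by
        rw [← Finset.sum_sub_distrib]
        refine Finset.sum_congr rfl (fun i _ => ?_)
        rw [mul_sub]
        simp only [mul_assoc]
      rw [hsub, ha, hb, sub_zero]
    have h3 : ∀ y i, y * (e i * (e i₀)⁻¹) - (e i * (e i₀)⁻¹) * y = 0 := by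
      intro y
      refine ih _ ?_ _ rfl (h2 y)
      rw [← hN]
      apply Finset.card_lt_card
      refine ⟨?_, ?_⟩
      · intro i hi
        simp only [Finset.mem_filter, Finset.mem_univ, true_and] at hi ⊢
        intro h0
        exact hi (by rw [h0]; simp)
      · intro hsub
        have := hsub (show i₀ ∈ Finset.univ.filter (fun i => e i ≠ 0) by simpa using hi₀)
        simp only [Finset.mem_filter, Finset.mem_univ, true_and] at this
        exact this (by rw [mul_inv_cancel₀ hi₀]; simp)
    have h4 : ∀ i, ∃ f : F, algebraMap F D f = e i * (e i₀)⁻¹ := by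
      intro i
      apply hc
      intro y
      exact (sub_eq_zero.1 (h3 y i)).symm
    choose f hf using h4
    have h5 : ∑ i, f i • d i = 0 := by
      rw [← h1 1]
      refine Finset.sum_congr rfl (fun i _ => ?_)
      rw [← hf, mul_one, Algebra.smul_def, Algebra.commutes]
    have h6 := Fintype.linearIndependent_iff.1 hd f h5 i₀
    have h7 := hf i₀
    rw [h6, map_zero, mul_inv_cancel₀ hi₀] at h7
    exact zero_ne_one h7

/-- If `Σ dᵢ x eᵢ = 0` for all `x ∈ D`, with `dᵢ` linearly independent over the centre `F` of `D`,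
then all `eᵢ = 0`. -/
theorem indep_aux (hc : ∀ x : D, (∀ y, x * y = y * x) → ∃ f : F, algebraMap F D f = x)
    {m : ℕ} (d e : Fin m → D) (hd : LinearIndependent F d)
    (h : ∀ x : D, ∑ i, d i * x * e i = 0) : ∀ i, e i = 0 :=
  P1_aux hc d hd _ e rfl h

theorem finrank_VV (φ : L →ₐ[F] D) (n : ℕ) (hn : n ≠ 0) (hD : finrank F D = n ^ 2)
    (hL : finrank F L = n) : finrank L (VV φ) = n := by
  have h1 : finrank F (VV φ) = n ^ 2 := hD
  have h2 := finrank_mul_finrank F L (VV φ)
  rw [h1, hL, pow_two] at h2
  exact Nat.eq_of_mul_eq_mul_left (Nat.pos_of_ne_zero hn) h2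

theorem P1_fin (φ : L →ₐ[F] D) (n : ℕ) (hn : n ≠ 0) (hD : finrank F D = n ^ 2)
    (hL : finrank F L = n) : FiniteDimensional L (VV φ) := by
  apply FiniteDimensional.of_finrank_pos
  rw [finrank_VV φ n hn hD hL]
  exact Nat.pos_of_ne_zero hn

/-- By `indep_aux` the operators `lm φ (bᵢ)` are linearly independent over `L`; there are
`n² = dim_L End_L(D)` of them. -/
theorem exists_bases (hc : ∀ x : D, (∀ y, x * y = y * x) → ∃ f : F, algebraMap F D f = x)
    (φ : L →ₐ[F] D) (n : ℕ) (hn : n ≠ 0) (hD : finrank F D = n ^ 2) (hL : finrank F L = n) :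
    ∃ (b : Basis (Fin (n ^ 2)) F D) (B : Basis (Fin (n ^ 2)) L (Module.End L (VV φ))),
      ∀ i, B i = lm φ (b i) := by
  have hfin := P1_fin φ n hn hD hL
  have hfinD : FiniteDimensional F D := by
    apply FiniteDimensional.of_finrank_pos
    rw [hD]
    positivity
  let b : Basis (Fin (n ^ 2)) F D := Module.finBasisOfFinrankEq F D hD
  have hli : LinearIndependent L (fun i => lm φ (b i)) := by
    rw [Fintype.linearIndependent_iff]
    intro g hg i
    have h1 := indep_aux hc b (fun i => φ (g i)) b.linearIndependent (by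
      intro x
      have h2 := LinearMap.congr_fun hg (show VV φ from x)
      rw [LinearMap.sum_apply, LinearMap.zero_apply] at h2
      exact h2) i
    exact (map_eq_zero φ).1 h1
  have hcard : Fintype.card (Fin (n ^ 2)) = finrank L (Module.End L (VV φ)) := by
    rw [Module.finrank_linearMap, finrank_VV φ n hn hD hL, Fintype.card_fin, pow_two]
  have : Nonempty (Fin (n ^ 2)) := ⟨⟨0, by positivity⟩⟩
  refine ⟨b, basisOfLinearIndependentOfCardEqFinrank hli hcard, fun i => ?_⟩
  simp

end PER
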