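import Pool.Agent.H24.PER.P1

/-! # Module P2: a trace form on `D` -/

set_option autoImplicit false

namespace PER
open Module

variable {F D L : Type} [Field F] [DivisionRing D] [Algebra F D] [Field L] [Algebra F L]

/-- The span of all commutators is not `D`: otherwise every `lm φ x` has trace `0`
(`LinearMap.trace L (VV φ)`, `LinearMap.trace_mul_comm`), and so has every `L`-linear
combination (`exists_bases`), i.e. every endomorphism of `VV φ ≠ 0`: contradiction.  Take a linear
form vanishing on the span of the commutators. -/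
theorem exists_trace_form (hc : ∀ x : D, (∀ y, x * y = y * x) → ∃ f : F, algebraMap F D f = x)
    (φ : L →ₐ[F] D) (n : ℕ) (hn : n ≠ 0) (hD : finrank F D = n ^ 2) (hL : finrank F L = n) :
    ∃ f : D →ₗ[F] F, f ≠ 0 ∧ ∀ x y, f (x * y) = f (y * x) := by
  have hfin := P1_fin φ n hn hD hL
  obtain ⟨b, B, hB⟩ := exists_bases hc φ n hn hD hL
  let S : Submodule F D := Submodule.span F {z | ∃ x y : D, z = x * y - y * x}
  have hS : S ≠ ⊤ := by
    intro htop
    have h1 : ∀ z ∈ S, LinearMap.trace L (VV φ) (lm φ z) = 0 := by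
      intro z hz
      induction hz using Submodule.span_induction with
      | mem z hz =>
        obtain ⟨x, y, rfl⟩ := hz
        rw [map_sub, map_mul, map_mul, map_sub, LinearMap.trace_mul_comm, sub_self]
      | zero => rw [map_zero, map_zero]
      | add v w _ _ hv hw => rw [map_add, map_add, hv, hw, add_zero]
      | smul a w _ hw =>
        rw [map_smul, ← IsScalarTower.algebraMap_smul L a (lm φ w), map_smul, hw, smul_zero]
    have h2 : ∀ T : Module.End L (VV φ), LinearMap.trace L (VV φ) T = 0 := by
      intro T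
      rw [← B.sum_repr T, map_sum]
      refine Finset.sum_eq_zero (fun i _ => ?_)
      rw [map_smul, hB, h1 _ (by rw [htop]; trivial), smul_zero]
    have hne : Nontrivial (VV φ) := by
      apply Module.nontrivial_of_finrank_pos (R := L)
      rw [finrank_VV φ n hn hD hL]
      exact Nat.pos_of_ne_zero hn
    obtain ⟨v, hv⟩ := exists_ne (0 : VV φ)
    have hf : ∃ f : Module.Dual L (VV φ), f v ≠ 0 := by
      by_contra hcon
      push Not at hcon
      exact hv ((Module.forall_dual_apply_eq_zero_iff L v).1 hcon)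
    obtain ⟨f, hf⟩ := hf
    have h3 := h2 (f.smulRight v)
    rw [LinearMap.trace_smulRight] at h3
    exact hf h3
  obtain ⟨f, hf0, hf⟩ := Submodule.exists_le_ker_of_lt_top S (lt_top_iff_ne_top.2 hS)
  refine ⟨f, hf0, fun x y => ?_⟩
  have h4 : f (x * y - y * x) = 0 := by
    have := hf (Submodule.subset_span ⟨x, y, rfl⟩)
    exact this
  rw [map_sub] at h4
  exact sub_eq_zero.1 h4

/-- Dual bases for the form `f (x y)` (non-degenerate as `D` is a division ring). -/
theorem exists_dual (f : D →ₗ[F] F) (hf : f ≠ 0) (hfc : ∀ x y, f (x * y) = f (y * x))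
    {m : ℕ} (b : Basis (Fin m) F D) :
    ∃ c : Basis (Fin m) F D, ∀ i j, f (b i * c j) = if i = j then 1 else 0 := by
  have hfin : Module.Finite F D := Module.Finite.of_basis b
  let bf : LinearMap.BilinForm F D := (LinearMap.mul F D).compr₂ f
  have hbf : ∀ x y, bf x y = f (x * y) := fun _ _ => rfl
  have hnd : bf.Nondegenerate := by
    constructor
    · intro x hx
      by_contra hne
      apply hf
      ext z
      have := hx (x⁻¹ * z)
      rw [hbf, ← mul_assoc, mul_inv_cancel₀ hne, one_mul] at this
      exact this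
    · intro x hx
      by_contra hne
      apply hf
      ext z
      have := hx (z * x⁻¹)
      rw [hbf, mul_assoc, inv_mul_cancel₀ hne, mul_one] at this
      exact this
  refine ⟨bf.dualBasis hnd b, fun i j => ?_⟩
  have h := LinearMap.BilinForm.apply_dualBasis_left hnd b j i
  rw [hbf] at h
  rw [hfc, h]

/-- Casimir relations, stated by applying an arbitrary `F`-bilinear map `β`:
`Σ x bᵢ ⊗ cᵢ = Σ bᵢ ⊗ cᵢ x` and `Σ bᵢ ⊗ x cᵢ = Σ bᵢ x ⊗ cᵢ`. -/
theorem casimir (f : D →ₗ[F] F) (hfc : ∀ x y, f (x * y) = f (y * x))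
    {m : ℕ} (b c : Basis (Fin m) F D) (hbc : ∀ i j, f (b i * c j) = if i = j then 1 else 0)
    {N : Type} [AddCommGroup N] [Module F N] (β : D →ₗ[F] D →ₗ[F] N) (x : D) :
    (∑ i, β (x * b i) (c i) = ∑ i, β (b i) (c i * x)) ∧
    (∑ i, β (b i) (x * c i) = ∑ i, β (b i * x) (c i)) := by
  have hb : ∀ z : D, z = ∑ j, f (z * c j) • b j := by
    intro z
    conv_lhs => rw [← b.sum_repr z]
    refine Finset.sum_congr rfl (fun j _ => ?_)
    congr 1
    conv_rhs => rw [← b.sum_repr z]
    rw [Finset.sum_mul, map_sum]
    simp only [smul_mul_assoc, map_smul, hbc]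
    simp
  have hc : ∀ z : D, z = ∑ j, f (b j * z) • c j := by
    intro z
    conv_lhs => rw [← c.sum_repr z]
    refine Finset.sum_congr rfl (fun j _ => ?_)
    congr 1
    conv_rhs => rw [← c.sum_repr z]
    rw [Finset.mul_sum, map_sum]
    simp only [mul_smul_comm, map_smul, hbc]
    simp
  constructor
  · have h1 : ∀ i, β (x * b i) (c i) = ∑ j, f (x * b i * c j) • β (b j) (c i) := by
      intro i
      conv_lhs => rw [hb (x * b i)]
      rw [map_sum, LinearMap.sum_apply]
      exact Finset.sum_congr rfl (fun j _ => by rw [map_smul, LinearMap.smul_apply])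
    have h2 : ∀ j, β (b j) (c j * x) = ∑ i, f (b i * (c j * x)) • β (b j) (c i) := by
      intro j
      conv_lhs => rw [hc (c j * x)]
      rw [map_sum]
      exact Finset.sum_congr rfl (fun i _ => by rw [map_smul])
    simp only [h1, h2]
    rw [Finset.sum_comm]
    refine Finset.sum_congr rfl (fun j _ => Finset.sum_congr rfl (fun i _ => ?_))
    congr 1
    rw [mul_assoc, hfc, mul_assoc]
  · have h1 : ∀ i, β (b i) (x * c i) = ∑ j, f (b j * (x * c i)) • β (b i) (c j) := by
      intro i
      conv_lhs => rw [hc (x * c i)]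
      rw [map_sum]
      exact Finset.sum_congr rfl (fun j _ => by rw [map_smul])
    have h2 : ∀ j, β (b j * x) (c j) = ∑ i, f (b j * x * c i) • β (b i) (c j) := by
      intro j
      conv_lhs => rw [hb (b j * x)]
      rw [map_sum, LinearMap.sum_apply]
      exact Finset.sum_congr rfl (fun i _ => by rw [map_smul, LinearMap.smul_apply])
    simp only [h1, h2]
    rw [Finset.sum_comm]
    refine Finset.sum_congr rfl (fun j _ => Finset.sum_congr rfl (fun i _ => ?_))
    rw [mul_assoc]

end PER
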