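import Pool.Agent.H24.PER.P2

/-! # Module P3: the flip of `V ⊗_L V` comes from `D ⊗_F D` -/

set_option autoImplicit false

namespace PER
open Module
open scoped TensorProduct

variable {F D L : Type} [Field F] [DivisionRing D] [Algebra F D] [Field L] [Algebra F L]

theorem P3_fd (φ : L →ₐ[F] D) (n : ℕ) (hn : n ≠ 0) (hD : finrank F D = n ^ 2)
    (hL : finrank F L = n) : FiniteDimensional L (VV φ) := by
  apply FiniteDimensional.of_finrank_pos
  rw [finrank_VV φ n hn hD hL]
  exact Nat.pos_of_ne_zero hn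

/-- Products `lm φ (bᵢ) ⊗ lm φ (bⱼ)` form an `L`-basis of `End_L(V ⊗ V)` (`V = VV φ`);
equivalently an endomorphism commuting with all `lm φ x ⊗ lm φ y` is a scalar. -/
theorem commute_scalar (hc : ∀ x : D, (∀ y, x * y = y * x) → ∃ f : F, algebraMap F D f = x)
    (φ : L →ₐ[F] D) (n : ℕ) (hn : n ≠ 0) (hD : finrank F D = n ^ 2) (hL : finrank F L = n)
    (G : Module.End L (VV φ ⊗[L] VV φ))
    (hG : ∀ (x y : D) (t : VV φ ⊗[L] VV φ), G (TensorProduct.map (lm φ x) (lm φ y) t) =
      TensorProduct.map (lm φ x) (lm φ y) (G t)) : ∃ μ : L, ∀ t, G t = μ • t := by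
  obtain ⟨b, B, hB⟩ := exists_bases hc φ n hn hD hL
  have h1 : ∀ (f : Module.End L (VV φ)) (y : D) (t : VV φ ⊗[L] VV φ),
      G (TensorProduct.map f (lm φ y) t) = TensorProduct.map f (lm φ y) (G t) := by
    intro f y
    refine Submodule.span_induction (p := fun f _ => ∀ t : VV φ ⊗[L] VV φ,
      G (TensorProduct.map f (lm φ y) t) = TensorProduct.map f (lm φ y) (G t))
      ?_ ?_ ?_ ?_ (B.mem_span f)
    · rintro _ ⟨i, rfl⟩ t
      rw [hB]
      exact hG _ _ _
    · intro t
      rw [TensorProduct.map_zero_left, LinearMap.zero_apply, map_zero, LinearMap.zero_apply]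
    · intro f g _ _ hf hg t
      rw [TensorProduct.map_add_left, LinearMap.add_apply, map_add, hf, hg, LinearMap.add_apply]
    · intro c f _ hf t
      rw [TensorProduct.map_smul_left, LinearMap.smul_apply, map_smul, hf, LinearMap.smul_apply]
  have h2 : ∀ (f g : Module.End L (VV φ)) (t : VV φ ⊗[L] VV φ),
      G (TensorProduct.map f g t) = TensorProduct.map f g (G t) := by
    intro f g
    refine Submodule.span_induction (p := fun g _ => ∀ t : VV φ ⊗[L] VV φ,
      G (TensorProduct.map f g t) = TensorProduct.map f g (G t))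
      ?_ ?_ ?_ ?_ (B.mem_span g)
    · rintro _ ⟨i, rfl⟩ t
      rw [hB]
      exact h1 _ _ _
    · intro t
      rw [TensorProduct.map_zero_right, LinearMap.zero_apply, map_zero, LinearMap.zero_apply]
    · intro g g' _ _ hf hg t
      rw [TensorProduct.map_add_right, LinearMap.add_apply, map_add, hf, hg, LinearMap.add_apply]
    · intro c g _ hf t
      rw [TensorProduct.map_smul_right, LinearMap.smul_apply, map_smul, hf, LinearMap.smul_apply]
  have hv : (show VV φ from (1 : D)) ≠ 0 := one_ne_zero (α := D)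
  obtain ⟨ξ, hξ⟩ := Module.Projective.exists_dual_eq_one L hv
  set v : VV φ := (show VV φ from (1 : D)) with hvdef
  refine ⟨TensorProduct.lid L L (TensorProduct.map ξ ξ (G (v ⊗ₜ[L] v))), ?_⟩
  have h3 : ∀ (u w : VV φ) (t : VV φ ⊗[L] VV φ),
      TensorProduct.map (LinearMap.smulRight ξ u) (LinearMap.smulRight ξ w) t =
        TensorProduct.lid L L (TensorProduct.map ξ ξ t) • (u ⊗ₜ[L] w) := by
    intro u w t
    induction t using TensorProduct.induction_on with
    | zero => rw [map_zero, map_zero, map_zero, zero_smul]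
    | tmul x y =>
      rw [TensorProduct.map_tmul, TensorProduct.map_tmul, TensorProduct.lid_tmul,
        LinearMap.smulRight_apply, LinearMap.smulRight_apply, TensorProduct.smul_tmul_smul,
        smul_eq_mul]
    | add x y hx hy => rw [map_add, hx, hy, map_add, map_add, add_smul]
  intro t
  induction t using TensorProduct.induction_on with
  | zero => rw [map_zero, smul_zero]
  | tmul u w =>
    rw [← h3 u w, ← h2, TensorProduct.map_tmul, LinearMap.smulRight_apply,
      LinearMap.smulRight_apply, hξ, one_smul, one_smul]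
  | add x y hx hy => rw [map_add, hx, hy, smul_add]

/-- operators `Σ f_k ⊗ g_k` which vanish on `V ⊗ V` -/
theorem P3_zero (φ : L →ₐ[F] D) (n : ℕ) (hn : n ≠ 0) (hD : finrank F D = n ^ 2)
    (hL : finrank F L = n) (T : Module.End L (VV φ) ⊗[L] Module.End L (VV φ))
    (hT : TensorProduct.homTensorHomMap (RingHom.id L) (VV φ) (VV φ) (VV φ) (VV φ) T = 0) :
    T = 0 := by
  have := P3_fd φ n hn hD hL
  have h := homTensorHomEquiv_apply (R := L) (M := VV φ) (N := VV φ) (P := VV φ) (Q := VV φ) T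
  rw [hT] at h
  exact (LinearEquiv.map_eq_zero_iff _).1 h

theorem P3_coord {n : ℕ} (φ : L →ₐ[F] D) (b : Basis (Fin (n ^ 2)) F D)
    (B : Basis (Fin (n ^ 2)) L (Module.End L (VV φ))) (hB : ∀ i, B i = lm φ (b i))
    (i : Fin (n ^ 2)) (d : D) : B.coord i (lm φ d) = algebraMap F L (b.coord i d) := by
  classical
  have h1 : lm φ d = ∑ j, (algebraMap F L (b.repr d j)) • B j := by
    conv_lhs => rw [← b.sum_repr d]
    rw [map_sum]
    refine Finset.sum_congr rfl fun j _ => ?_
    rw [map_smul, hB, algebraMap_smul]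
  rw [h1, map_sum]
  rw [Finset.sum_eq_single i]
  · rw [map_smul, Basis.coord_apply, Basis.repr_self, Finsupp.single_eq_same, smul_eq_mul, mul_one,
      Basis.coord_apply]
  · intro j _ hj
    rw [map_smul, Basis.coord_apply, Basis.repr_self, Finsupp.single_eq_of_ne hj.symm, smul_zero]
  · intro h
    exact absurd (Finset.mem_univ i) h

theorem P3_scalar_mem (hc : ∀ x : D, (∀ y, x * y = y * x) → ∃ f : F, algebraMap F D f = x)
    (φ : L →ₐ[F] D) (n : ℕ) (hn : n ≠ 0) (hD : finrank F D = n ^ 2) (hL : finrank F L = n)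
    {ι : Type} [Fintype ι] (a c : ι → D) (μ : L)
    (h : ∀ v w : VV φ, ∑ k, (lm φ (a k) v) ⊗ₜ[L] (lm φ (c k) w) = μ • (v ⊗ₜ[L] w)) :
    μ ∈ Set.range (algebraMap F L) := by
  classical
  obtain ⟨b, B, hB⟩ := exists_bases hc φ n hn hD hL
  have hT : (∑ k, (lm φ (a k)) ⊗ₜ[L] (lm φ (c k)) -
      μ • ((1 : Module.End L (VV φ)) ⊗ₜ[L] (1 : Module.End L (VV φ)))) = 0 := by
    apply P3_zero φ n hn hD hL
    apply TensorProduct.ext'
    intro v w
    rw [map_sub, map_sum, map_smul, LinearMap.sub_apply, LinearMap.sum_apply, LinearMap.smul_apply,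
      LinearMap.zero_apply]
    simp only [TensorProduct.homTensorHomMap_apply, TensorProduct.map_tmul, Module.End.one_apply]
    rw [h, sub_self]
  obtain ⟨i, hi⟩ : ∃ i, b.coord i 1 ≠ 0 := by
    by_contra hcon
    push Not at hcon
    have h1 : (1 : D) = 0 := by
      rw [← b.sum_repr 1]
      refine Finset.sum_eq_zero fun j _ => ?_
      have h2 := hcon j
      rw [Basis.coord_apply] at h2
      rw [h2, zero_smul]
    exact one_ne_zero h1
  have h1 := congrArg (fun T => TensorProduct.lid L L (TensorProduct.map (B.coord i) (B.coord i) T)) hT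
  simp only [map_sub, map_sum, map_smul, map_zero, TensorProduct.map_tmul,
    TensorProduct.lid_tmul] at h1
  have hone : (1 : Module.End L (VV φ)) = lm φ 1 := (map_one (lm φ)).symm
  rw [hone] at h1
  simp only [P3_coord φ b B hB, smul_eq_mul, ← map_mul, ← map_sum] at h1
  have h2 : algebraMap F L (b.coord i 1 * b.coord i 1) ≠ 0 := by
    rw [map_ne_zero]
    exact mul_ne_zero hi hi
  refine ⟨(∑ k, b.coord i (a k) * b.coord i (c k)) / (b.coord i 1 * b.coord i 1), ?_⟩
  rw [map_div₀, div_eq_iff h2]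
  exact sub_eq_zero.1 h1

/-- If a scalar operator `μ` on `V ⊗_L V` is an `F`-combination of the `lm φ x ⊗ lm φ y` then
`μ ∈ F` (compare coordinates with those of the identity `1 ⊗ 1` in the basis). -/
theorem scalar_mem (hc : ∀ x : D, (∀ y, x * y = y * x) → ∃ f : F, algebraMap F D f = x)
    (φ : L →ₐ[F] D) (n : ℕ) (hn : n ≠ 0) (hD : finrank F D = n ^ 2) (hL : finrank F L = n)
    {m : ℕ} (a c : Fin m → D) (μ : L)
    (h : ∀ v w : VV φ, ∑ k, (lm φ (a k) v) ⊗ₜ[L] (lm φ (c k) w) = μ • (v ⊗ₜ[L] w)) :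
    μ ∈ Set.range (algebraMap F L) :=
  P3_scalar_mem hc φ n hn hD hL a c μ h

/-- `μ ∈ L`, `μ² ∈ F`, `[L : F]` odd imply `μ ∈ F`. -/
theorem mem_of_sq (n : ℕ) (hn : Odd n) (hL : finrank F L = n) (μ : L)
    (h : μ ^ 2 ∈ Set.range (algebraMap F L)) : μ ∈ Set.range (algebraMap F L) := by
  have hfd : FiniteDimensional F L := by
    apply FiniteDimensional.of_finrank_pos
    rw [hL]
    exact hn.pos
  have hint : IsIntegral F μ := Algebra.IsIntegral.isIntegral μ
  have h1 : (minpoly F μ).natDegree ∣ n := by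
    rw [← hL]
    exact minpoly.degree_dvd hint
  obtain ⟨f, hf⟩ := h
  have h2 : (minpoly F μ).natDegree ≤ 2 := by
    have hd : minpoly F μ ∣ Polynomial.X ^ 2 - Polynomial.C f := by
      apply minpoly.dvd
      rw [map_sub, map_pow, Polynomial.aeval_X, Polynomial.aeval_C, hf, sub_self]
    have hne : (Polynomial.X ^ 2 - Polynomial.C f : Polynomial F) ≠ 0 :=
      Polynomial.X_pow_sub_C_ne_zero (by norm_num) f
    have := Polynomial.natDegree_le_of_dvd hd hne
    rwa [Polynomial.natDegree_X_pow_sub_C] at this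
  have h3 : Odd (minpoly F μ).natDegree := Odd.of_dvd_nat hn h1
  have h4 : (minpoly F μ).natDegree = 1 := by
    obtain ⟨k, hk⟩ := h3
    omega
  have h5 := (minpoly.natDegree_eq_one_iff).1 h4
  exact h5

/-- the bilinear map `(d, d') ↦ d v ⊗ e d' w` for a fixed `e` -/
noncomputable def P3_beta (φ : L →ₐ[F] D) (e : D) (v w : VV φ) : D →ₗ[F] D →ₗ[F] (VV φ ⊗[L] VV φ) :=
  LinearMap.mk₂ F (fun x y => (lm φ x v) ⊗ₜ[L] (lm φ (e * y) w))
    (fun x x' y => by rw [map_add, LinearMap.add_apply, TensorProduct.add_tmul])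
    (fun c x y => by rw [map_smul, LinearMap.smul_apply, TensorProduct.smul_tmul'])
    (fun x y y' => by rw [mul_add, map_add, LinearMap.add_apply, TensorProduct.tmul_add])
    (fun c x y => by
      rw [mul_smul_comm, map_smul, LinearMap.smul_apply, TensorProduct.tmul_smul])

theorem P3_beta_apply (φ : L →ₐ[F] D) (e : D) (v w : VV φ) (x y : D) :
    P3_beta φ e v w x y = (lm φ x v) ⊗ₜ[L] (lm φ (e * y) w) := rfl

/-- The flip.  With dual bases `b, c` (`exists_dual`) let `G = Σ lm(bₖ) ⊗ lm(cₖ)` on `V ⊗_L V` and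
`τ` the flip.  By `casimir`, `G (x ⊗ y) = (y ⊗ x) G`, so `τ G` commutes with all
`lm x ⊗ lm y`, hence is a scalar `μ ∈ L` (`commute_scalar`); `μ ≠ 0` (the `bₖ`, `cₖ` are bases).
`G² = (τ μ)² = μ²` is an `F`-combination of `lm ⊗ lm`, so `μ² ∈ F` (`scalar_mem`), `μ ∈ F`
(`mem_of_sq`).  Replace `bₖ` by `μ⁻¹ bₖ`. -/
theorem exists_flip (hc : ∀ x : D, (∀ y, x * y = y * x) → ∃ f : F, algebraMap F D f = x)
    (φ : L →ₐ[F] D) (n : ℕ) (hn : Odd n) (hD : finrank F D = n ^ 2) (hL : finrank F L = n) :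
    ∃ (m : ℕ) (a c : Fin m → D), ∀ v w : VV φ,
      ∑ k, (lm φ (a k) v) ⊗ₜ[L] (lm φ (c k) w) = w ⊗ₜ[L] v := by
  classical
  have hn0 : n ≠ 0 := hn.pos.ne'
  obtain ⟨b, B, hB⟩ := exists_bases hc φ n hn0 hD hL
  obtain ⟨f, hf, hfc⟩ := exists_trace_form hc φ n hn0 hD hL
  obtain ⟨c, hbc⟩ := exists_dual f hf hfc b
  obtain ⟨G, hGdef⟩ : ∃ G : Module.End L (VV φ ⊗[L] VV φ),
      G = ∑ k, TensorProduct.map (lm φ (b k)) (lm φ (c k)) := ⟨_, rfl⟩
  have hGt : ∀ v w : VV φ, G (v ⊗ₜ[L] w) = ∑ k, (lm φ (b k) v) ⊗ₜ[L] (lm φ (c k) w) := by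
    intro v w
    rw [hGdef, LinearMap.sum_apply]
    simp only [TensorProduct.map_tmul]
  have hcomm : ∀ (x y : D) (v w : VV φ), G ((lm φ x v) ⊗ₜ[L] (lm φ y w)) =
      TensorProduct.map (lm φ y) (lm φ x) (G (v ⊗ₜ[L] w)) := by
    intro x y v w
    rw [hGt, hGt, map_sum]
    simp only [TensorProduct.map_tmul]
    have e1 := (casimir f hfc b c hbc (P3_beta φ 1 v (lm φ y w)) x).2
    have e2 := (casimir f hfc b c hbc (P3_beta φ x v w) y).1
    simp only [P3_beta_apply, one_mul, map_mul, Module.End.mul_apply] at e1 e2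
    simp only [← Module.End.mul_apply, ← map_mul] at e1 e2 ⊢
    rw [← e1, e2]
  have hcomm' : ∀ (x y : D) (t : VV φ ⊗[L] VV φ),
      G (TensorProduct.map (lm φ x) (lm φ y) t) = TensorProduct.map (lm φ y) (lm φ x) (G t) := by
    intro x y t
    induction t using TensorProduct.induction_on with
    | zero => rw [map_zero, map_zero, map_zero]
    | tmul v w => rw [TensorProduct.map_tmul, hcomm]
    | add s t hs ht => rw [map_add, map_add, hs, ht, map_add, map_add]
  obtain ⟨μ, hμ⟩ := commute_scalar hc φ n hn0 hD hL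
    ((TensorProduct.comm L (VV φ) (VV φ)).toLinearMap ∘ₗ G) (by
      intro x y t
      rw [LinearMap.comp_apply, LinearMap.comp_apply, hcomm']
      generalize G t = s
      induction s using TensorProduct.induction_on with
      | zero => simp only [map_zero]
      | tmul v w =>
        simp only [LinearEquiv.coe_coe, TensorProduct.map_tmul, TensorProduct.comm_tmul]
      | add s t hs ht => simp only [map_add, hs, ht])
  have hGμ : ∀ v w : VV φ, G (v ⊗ₜ[L] w) = μ • (w ⊗ₜ[L] v) := by
    intro v w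
    have h1 := hμ (v ⊗ₜ[L] w)
    rw [LinearMap.comp_apply, LinearEquiv.coe_coe] at h1
    have h2 := congrArg (TensorProduct.comm L (VV φ) (VV φ)) h1
    rw [map_smul, TensorProduct.comm_tmul, TensorProduct.comm_comm] at h2
    exact h2
  have hμ0 : μ ≠ 0 := by
    intro h0
    have hT : (∑ k, (lm φ (b k)) ⊗ₜ[L] (lm φ (c k)) :
        Module.End L (VV φ) ⊗[L] Module.End L (VV φ)) = 0 := by
      apply P3_zero φ n hn0 hD hL
      apply TensorProduct.ext'
      intro v w
      rw [map_sum, LinearMap.sum_apply, LinearMap.zero_apply]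
      simp only [TensorProduct.homTensorHomMap_apply, TensorProduct.map_tmul]
      rw [← hGt, hGμ, h0, zero_smul]
    have hpos : 0 < n ^ 2 := pow_pos hn.pos 2
    let i : Fin (n ^ 2) := ⟨0, hpos⟩
    have h1 := congrArg (fun T => TensorProduct.lid L (Module.End L (VV φ))
      (TensorProduct.map (B.coord i) LinearMap.id T)) hT
    simp only [map_sum, map_zero, TensorProduct.map_tmul, TensorProduct.lid_tmul,
      LinearMap.id_apply] at h1
    rw [Finset.sum_eq_single i] at h1
    · rw [← hB, Basis.coord_apply, Basis.repr_self, Finsupp.single_eq_same, one_smul] at h1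
      have h2 := congrArg (fun T : Module.End L (VV φ) => T (show VV φ from (1 : D))) h1
      have h3 : (c i : D) * 1 = 0 := h2
      rw [mul_one] at h3
      exact c.ne_zero i h3
    · intro j _ hj
      rw [← hB, Basis.coord_apply, Basis.repr_self, Finsupp.single_eq_of_ne hj.symm, zero_smul]
    · intro h
      exact absurd (Finset.mem_univ i) h
  have hsq : μ ^ 2 ∈ Set.range (algebraMap F L) := by
    apply P3_scalar_mem hc φ n hn0 hD hL (fun k : Fin (n ^ 2) × Fin (n ^ 2) => b k.1 * b k.2)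
      (fun k => c k.1 * c k.2)
    intro v w
    have h1 : G (G (v ⊗ₜ[L] w)) = μ ^ 2 • (v ⊗ₜ[L] w) := by
      rw [hGμ, map_smul, hGμ, smul_smul, pow_two]
    rw [← h1, hGt, map_sum, Fintype.sum_prod_type]
    rw [Finset.sum_comm]
    refine Finset.sum_congr rfl fun k _ => ?_
    rw [hGt]
    simp only [map_mul, Module.End.mul_apply]
  obtain ⟨r, hr⟩ := mem_of_sq n hn hL μ hsq
  have hr0 : r ≠ 0 := by
    rintro rfl
    rw [map_zero] at hr
    exact hμ0 hr.symm
  refine ⟨n ^ 2, fun k => r⁻¹ • b k, fun k => c k, fun v w => ?_⟩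
  have h1 : ∀ k, (lm φ (r⁻¹ • b k) v) ⊗ₜ[L] (lm φ (c k) w) =
      r⁻¹ • ((lm φ (b k) v) ⊗ₜ[L] (lm φ (c k) w)) := by
    intro k
    rw [map_smul, LinearMap.smul_apply, TensorProduct.smul_tmul']
  simp only [h1]
  rw [← Finset.smul_sum, ← hGt, hGμ, ← hr, algebraMap_smul, smul_smul, inv_mul_cancel₀ hr0, one_smul]

end PER
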