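import Pool.Agent.H24.PER.P1

/-! # Module P4: the tensor power `D^{⊗n}` acting on `V^{⊗n}` -/

set_option autoImplicit false

namespace PER
open Module
open scoped TensorProduct

variable {F D L : Type} [Field F] [DivisionRing D] [Algebra F D] [Field L] [Algebra F L]

/-- The action of `D^{⊗n}` (over `F`) on `V^{⊗n}` (over `L`).  (`PiTensorProduct.lift` of the
`F`-multilinear map `x ↦ PiTensorProduct.map (fun i => lm φ (x i))`.) -/
theorem exists_action (φ : L →ₐ[F] D) (n : ℕ) :
    ∃ Rn : (⨂[F] _ : Fin n, D) →ₐ[F] Module.End L (⨂[L] _ : Fin n, VV φ),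
      ∀ x : Fin n → D, Rn (PiTensorProduct.tprod F x) =
        PiTensorProduct.map (fun i => lm φ (x i)) := by
  classical
  let f : MultilinearMap F (fun _ : Fin n => D) (Module.End L (⨂[L] _ : Fin n, VV φ)) :=
    { toFun := fun x => PiTensorProduct.map (fun i => lm φ (x i))
      map_update_add' := by
        intro _ x i a b
        have key : ∀ c : D, (fun j => lm φ (Function.update x i c j)) =
            Function.update (fun j => lm φ (x j)) i (lm φ c) := by
          intro c
          funext j
          by_cases hj : j = i
          · subst hj; simp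
          · simp [Function.update_of_ne hj]
        have h := PiTensorProduct.map_update_add (R := L) (fun j => lm φ (x j)) i (lm φ a) (lm φ b)
        rw [← map_add] at h
        convert h using 2
        · rw [← key]
        · rw [← key]
        · rw [← key]
      map_update_smul' := by
        intro _ x i c a
        have key : ∀ c : D, (fun j => lm φ (Function.update x i c j)) =
            Function.update (fun j => lm φ (x j)) i (lm φ c) := by
          intro c
          funext j
          by_cases hj : j = i
          · subst hj; simp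
          · simp [Function.update_of_ne hj]
        have h := PiTensorProduct.map_update_smul (R := L) (fun j => lm φ (x j)) i
          (algebraMap F L c) (lm φ a)
        rw [algebraMap_smul, algebraMap_smul, ← map_smul] at h
        convert h using 2
        · rw [← key]
        · rw [← key] }
  refine ⟨PiTensorProduct.liftAlgHom f ?_ ?_, ?_⟩
  · change PiTensorProduct.map (fun i => lm φ ((1 : Fin n → D) i)) = 1
    have : (fun i => lm φ ((1 : Fin n → D) i)) = fun _ : Fin n => (1 : VV φ →ₗ[L] VV φ) := by
      funext i
      simp
    rw [this]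
    exact PiTensorProduct.map_one
  · intro x y
    change PiTensorProduct.map (fun i => lm φ ((x * y) i)) =
      PiTensorProduct.map (fun i => lm φ (x i)) * PiTensorProduct.map (fun i => lm φ (y i))
    rw [← PiTensorProduct.map_mul]
    congr 1
    funext i
    simp
  · intro x
    change PiTensorProduct.lift f (PiTensorProduct.tprod F x) = _
    rw [PiTensorProduct.lift.tprod]
    rfl

/-- `Basis.piTensorProduct` of `b` is mapped to an `L`-basis of the endomorphisms: for a basis `e`
of `V` the matrix units `e_{i_k j_k}`, tensored together, form the basis of matrix units of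
`V^{⊗n}`, so `piTensorHomMap : ⨂ End_L V → End_L (⨂ V)` is bijective; it maps the tensor basis of
the `B i` to the operators in question. -/
theorem exists_tensor_bases
    (hc : ∀ x : D, (∀ y, x * y = y * x) → ∃ f : F, algebraMap F D f = x)
    (φ : L →ₐ[F] D) (n : ℕ) (hn : n ≠ 0) (hD : finrank F D = n ^ 2) (hL : finrank F L = n)
    (Rn : (⨂[F] _ : Fin n, D) →ₐ[F] Module.End L (⨂[L] _ : Fin n, VV φ))
    (hR : ∀ x : Fin n → D, Rn (PiTensorProduct.tprod F x) =
        PiTensorProduct.map (fun i => lm φ (x i))) :
    ∃ (b : Basis (Fin n → Fin (n ^ 2)) F (⨂[F] _ : Fin n, D))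
      (B : Basis (Fin n → Fin (n ^ 2)) L (Module.End L (⨂[L] _ : Fin n, VV φ))),
      ∀ i, B i = Rn (b i) := by
  classical
  obtain ⟨b0, B0, h0⟩ := exists_bases hc φ n hn hD hL
  have hV : finrank L (VV φ) = n := finrank_VV φ n hn hD hL
  haveI : Module.Finite L (VV φ) := Module.finite_of_finrank_pos (by omega)
  let e : Basis (Fin n) L (VV φ) := Module.finBasisOfFinrankEq L (VV φ) hV
  let E : Basis (Fin n → Fin n) L (⨂[L] _ : Fin n, VV φ) := Basis.piTensorProduct (fun _ => e)
  let T : (⨂[L] _ : Fin n, (VV φ →ₗ[L] VV φ)) →ₗ[L]
      ((⨂[L] _ : Fin n, VV φ) →ₗ[L] (⨂[L] _ : Fin n, VV φ)) := PiTensorProduct.piTensorHomMap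
  let TB : Basis (Fin n → Fin (n ^ 2)) L (⨂[L] _ : Fin n, (VV φ →ₗ[L] VV φ)) :=
    Basis.piTensorProduct (fun _ => B0)
  have hTunit : ∀ (p q r : Fin n → Fin n),
      T (PiTensorProduct.tprod L (fun k => (e.coord (q k)).smulRight (e (p k)))) (E r) =
        if q = r then E p else 0 := by
    intro p q r
    have h1 : E r = PiTensorProduct.tprod L (fun k => e (r k)) := by
      simp only [E]
      rw [Basis.piTensorProduct_apply]
    have h2 : E p = PiTensorProduct.tprod L (fun k => e (p k)) := by
      simp only [E]
      rw [Basis.piTensorProduct_apply]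
    rw [h1, PiTensorProduct.piTensorHomMap_tprod_tprod]
    have h3 : (fun i => ((e.coord (q i)).smulRight (e (p i))) (e (r i))) =
        fun i => (if q i = r i then (1 : L) else 0) • e (p i) := by
      funext i
      simp only [LinearMap.smulRight_apply, Basis.coord_apply, Basis.repr_self,
        Finsupp.single_apply]
      congr 1
      simp only [eq_comm]
    rw [h3, MultilinearMap.map_smul_univ, Fintype.prod_ite_zero]
    by_cases hqr : q = r
    · rw [if_pos hqr, if_pos (fun i => congrFun hqr i), h2]
      simp
    · rw [if_neg hqr, if_neg (fun h => hqr (funext h)), zero_smul]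
  have hsurj : Function.Surjective T := by
    intro f
    refine ⟨∑ q : Fin n → Fin n, ∑ p : Fin n → Fin n, (E.repr (f (E q)) p) •
      PiTensorProduct.tprod L (fun k => (e.coord (q k)).smulRight (e (p k))), ?_⟩
    apply E.ext
    intro r
    simp only [map_sum, map_smul, LinearMap.sum_apply, LinearMap.smul_apply, hTunit]
    rw [Finset.sum_eq_single r]
    · simp only [if_true]
      exact E.sum_repr (f (E r))
    · intro q _ hq
      simp [hq]
    · simp
  haveI : Module.Finite L (⨂[L] _ : Fin n, (VV φ →ₗ[L] VV φ)) := Module.Finite.of_basis TB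
  haveI : Module.Finite L (⨂[L] _ : Fin n, VV φ) := Module.Finite.of_basis E
  have hdim : finrank L (⨂[L] _ : Fin n, (VV φ →ₗ[L] VV φ)) =
      finrank L ((⨂[L] _ : Fin n, VV φ) →ₗ[L] (⨂[L] _ : Fin n, VV φ)) := by
    rw [Module.finrank_linearMap, Module.finrank_eq_card_basis TB, Module.finrank_eq_card_basis E]
    simp only [Fintype.card_fun, Fintype.card_fin]
    ring
  have hinj : Function.Injective T :=
    (LinearMap.injective_iff_surjective_of_finrank_eq_finrank hdim).mpr hsurj
  refine ⟨Basis.piTensorProduct (fun _ => b0), TB.map (LinearEquiv.ofBijective T ⟨hinj, hsurj⟩), ?_⟩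
  intro i
  have hbi : (Basis.piTensorProduct (fun _ => b0) : Basis (Fin n → Fin (n ^ 2)) F
      (⨂[F] _ : Fin n, D)) i = PiTensorProduct.tprod F (fun k => b0 (i k)) := by
    rw [Basis.piTensorProduct_apply]
  rw [hbi, hR]
  change T (TB i) = _
  have : TB i = PiTensorProduct.tprod L (fun k => B0 (i k)) := by
    simp only [TB]
    rw [Basis.piTensorProduct_apply]
  rw [this]
  change PiTensorProduct.piTensorHomMap _ = _
  rw [PiTensorProduct.piTensorHomMap_tprod_eq_map]
  congr 1
  funext k
  exact h0 (i k)

end PER
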