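import Pool.Agent.H24.PER.P3
import Pool.Agent.H24.PER.P4

/-! # Module P5: permutation operators and the antisymmetriser come from `D^{⊗n}` -/

set_option autoImplicit false

namespace PER
open Module
open scoped TensorProduct

variable {F D L : Type} [Field F] [DivisionRing D] [Algebra F D] [Field L] [Algebra F L]

/-- The linear map `V ⊗ V → ⨂ V`, `x ⊗ y ↦ tprod (update (update v i x) j y)`. -/
noncomputable def P5_Psi {V : Type} [AddCommGroup V] [Module L V] {n : ℕ} (v : Fin n → V)
    (i j : Fin n) (hij : i ≠ j) : (V ⊗[L] V) →ₗ[L] (⨂[L] _ : Fin n, V) :=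
  TensorProduct.lift (LinearMap.mk₂ L
    (fun x y => PiTensorProduct.tprod L (Function.update (Function.update v i x) j y))
    (by
      intro x x' y
      rw [Function.update_comm hij x y v, Function.update_comm hij x' y v,
        Function.update_comm hij (x + x') y v, MultilinearMap.map_update_add])
    (by
      intro c x y
      rw [Function.update_comm hij x y v, Function.update_comm hij (c • x) y v,
        MultilinearMap.map_update_smul])
    (by
      intro x y y'
      rw [MultilinearMap.map_update_add])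
    (by
      intro c x y
      rw [MultilinearMap.map_update_smul]))

theorem P5_Psi_tmul {V : Type} [AddCommGroup V] [Module L V] {n : ℕ} (v : Fin n → V)
    (i j : Fin n) (hij : i ≠ j) (x y : V) :
    P5_Psi (L := L) v i j hij (x ⊗ₜ[L] y) =
      PiTensorProduct.tprod L (Function.update (Function.update v i x) j y) := by
  unfold P5_Psi
  rw [TensorProduct.lift.tmul, LinearMap.mk₂_apply]

/-- A transposition: `Σ_k (a_k in place i, c_k in place j, 1 elsewhere)`, from `exists_flip`
(apply `PiTensorProduct.map` of `Function.update`s to `tprod v`; to use `exists_flip` compose with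
the linear map `V ⊗ V → ⨂ V`, `x ⊗ y ↦ tprod (update (update v i x) j y)`). -/
theorem swap_mem (φ : L →ₐ[F] D) (n : ℕ)
    (Rn : (⨂[F] _ : Fin n, D) →ₐ[F] Module.End L (⨂[L] _ : Fin n, VV φ))
    (hR : ∀ x : Fin n → D, Rn (PiTensorProduct.tprod F x) =
        PiTensorProduct.map (fun i => lm φ (x i)))
    {m : ℕ} (a c : Fin m → D)
    (hf : ∀ v w : VV φ, ∑ k, (lm φ (a k) v) ⊗ₜ[L] (lm φ (c k) w) = w ⊗ₜ[L] v)
    (i j : Fin n) (hij : i ≠ j) :
    ∃ s : (⨂[F] _ : Fin n, D), ∀ v : Fin n → VV φ, Rn s (PiTensorProduct.tprod L v) =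
      PiTensorProduct.tprod L (fun l => v (Equiv.swap i j l)) := by
  refine ⟨∑ k, PiTensorProduct.tprod F
    (Function.update (Function.update (fun _ => (1 : D)) i (a k)) j (c k)), fun v => ?_⟩
  rw [map_sum, LinearMap.sum_apply]
  have h1 : ∀ k, Rn (PiTensorProduct.tprod F
      (Function.update (Function.update (fun _ => (1 : D)) i (a k)) j (c k)))
        (PiTensorProduct.tprod L v) =
      P5_Psi (L := L) v i j hij ((lm φ (a k) (v i)) ⊗ₜ[L] (lm φ (c k) (v j))) := by
    intro k
    rw [hR, PiTensorProduct.map_tprod, P5_Psi_tmul]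
    congr 1
    funext l
    by_cases hlj : l = j
    · subst hlj
      rw [Function.update_self, Function.update_self]
    · rw [Function.update_of_ne hlj, Function.update_of_ne hlj]
      by_cases hli : l = i
      · subst hli
        rw [Function.update_self, Function.update_self]
      · rw [Function.update_of_ne hli, Function.update_of_ne hli, map_one]
        rfl
  rw [Finset.sum_congr rfl (fun k _ => h1 k), ← map_sum, hf, P5_Psi_tmul]
  congr 1
  funext l
  by_cases hlj : l = j
  · subst hlj
    rw [Function.update_self, Equiv.swap_apply_right]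
  · rw [Function.update_of_ne hlj]
    by_cases hli : l = i
    · subst hli
      rw [Function.update_self, Equiv.swap_apply_left]
    · rw [Function.update_of_ne hli, Equiv.swap_apply_of_ne_of_ne hli hlj]

/-- Every permutation (`Equiv.Perm.swap_induction_on`). -/
theorem perm_mem (φ : L →ₐ[F] D) (n : ℕ)
    (Rn : (⨂[F] _ : Fin n, D) →ₐ[F] Module.End L (⨂[L] _ : Fin n, VV φ))
    (hR : ∀ x : Fin n → D, Rn (PiTensorProduct.tprod F x) =
        PiTensorProduct.map (fun i => lm φ (x i)))
    {m : ℕ} (a c : Fin m → D)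
    (hf : ∀ v w : VV φ, ∑ k, (lm φ (a k) v) ⊗ₜ[L] (lm φ (c k) w) = w ⊗ₜ[L] v)
    (σ : Equiv.Perm (Fin n)) :
    ∃ s : (⨂[F] _ : Fin n, D), ∀ v : Fin n → VV φ, Rn s (PiTensorProduct.tprod L v) =
      PiTensorProduct.tprod L (fun l => v (σ l)) := by
  refine Equiv.Perm.swap_induction_on (motive := fun σ => ∃ s : (⨂[F] _ : Fin n, D),
    ∀ v : Fin n → VV φ, Rn s (PiTensorProduct.tprod L v) =
      PiTensorProduct.tprod L (fun l => v (σ l))) σ ?_ ?_
  · refine ⟨1, fun v => ?_⟩
    rw [map_one]
    rfl
  · intro τ x y hxy hτ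
    obtain ⟨s, hs⟩ := hτ
    obtain ⟨t, ht⟩ := swap_mem φ n Rn hR a c hf x y hxy
    refine ⟨s * t, fun v => ?_⟩
    rw [map_mul, Module.End.mul_apply, ht, hs]
    rfl

/-- The antisymmetriser `S = Σ_σ sign(σ) P_σ`, of rank one: `v ↦ S (tprod v)` is an alternating
map on the `n`-dimensional space `V`, so `S (tprod v) = det_e(v) • ω`, `ω = S (tprod e)`
(`MultilinearMap.alternatization`, `Basis.ext_alternating` / `AlternatingMap.eq_smul_basis_det`
coordinatewise), and `ω ≠ 0` (its coordinate at `tprod e` in `Basis.piTensorProduct` is 1). -/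
theorem antisym_mem (φ : L →ₐ[F] D) (n : ℕ) (hV : finrank L (VV φ) = n) (hn : n ≠ 0)
    (Rn : (⨂[F] _ : Fin n, D) →ₐ[F] Module.End L (⨂[L] _ : Fin n, VV φ))
    (hP : ∀ σ : Equiv.Perm (Fin n), ∃ s : (⨂[F] _ : Fin n, D), ∀ v : Fin n → VV φ,
      Rn s (PiTensorProduct.tprod L v) = PiTensorProduct.tprod L (fun l => v (σ l))) :
    ∃ (s : (⨂[F] _ : Fin n, D)) (ω : ⨂[L] _ : Fin n, VV φ)
      (l : (⨂[L] _ : Fin n, VV φ) →ₗ[L] L), ω ≠ 0 ∧ l ≠ 0 ∧ ∀ w, Rn s w = l w • ω := by
  choose P hPP using hP
  have hfd : FiniteDimensional L (VV φ) := by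
    apply Module.finite_of_finrank_pos
    rw [hV]
    exact Nat.pos_of_ne_zero hn
  let e : Basis (Fin n) L (VV φ) := finBasisOfFinrankEq L (VV φ) hV
  let A : (VV φ) [⋀^Fin n]→ₗ[L] (⨂[L] _ : Fin n, VV φ) :=
    MultilinearMap.alternatization (PiTensorProduct.tprod L)
  have hA : ∀ v : Fin n → VV φ, A v = ∑ σ : Equiv.Perm (Fin n),
      Equiv.Perm.sign σ • PiTensorProduct.tprod L (fun l => v (σ l)) := by
    intro v
    exact MultilinearMap.alternatization_apply _ v
  let s : (⨂[F] _ : Fin n, D) := ∑ σ : Equiv.Perm (Fin n), ((Equiv.Perm.sign σ : ℤˣ) : ℤ) • P σ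
  have hs : ∀ v : Fin n → VV φ, Rn s (PiTensorProduct.tprod L v) = A v := by
    intro v
    rw [hA]
    simp only [s]
    rw [map_sum, LinearMap.sum_apply]
    refine Finset.sum_congr rfl (fun σ _ => ?_)
    rw [map_zsmul]
    rcases Int.units_eq_one_or (Equiv.Perm.sign σ) with h1 | h1
    · rw [h1, Units.val_one, one_smul, one_smul, hPP]
    · rw [h1, Units.val_neg, Units.val_one, neg_smul, one_smul, LinearMap.neg_apply, hPP,
        Units.smul_def, Units.val_neg, Units.val_one, neg_smul, one_smul]
  have hdet : ∀ v : Fin n → VV φ, A v = e.det v • A e := by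
    intro v
    have h1 : A = (LinearMap.toSpanSingleton L _ (A e)).compAlternatingMap e.det := by
      refine Basis.ext_alternating e (fun w hw => ?_)
      have hb : Function.Bijective w := (Fintype.bijective_iff_injective_and_card w).2 ⟨hw, rfl⟩
      let τ : Equiv.Perm (Fin n) := Equiv.ofBijective w hb
      have e1 : (fun i => e (w i)) = (fun i => e (τ i)) := rfl
      rw [e1]
      have e2 : (fun i => e (τ i)) = (e : Fin n → VV φ) ∘ τ := rfl
      rw [e2, AlternatingMap.map_perm, AlternatingMap.map_perm,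
        LinearMap.compAlternatingMap_apply, Basis.det_self, LinearMap.toSpanSingleton_apply,
        one_smul]
    have h2 := congrArg (fun B : (VV φ) [⋀^Fin n]→ₗ[L] (⨂[L] _ : Fin n, VV φ) => B v) h1
    simpa [LinearMap.compAlternatingMap_apply, LinearMap.toSpanSingleton_apply] using h2
  refine ⟨s, A e, PiTensorProduct.lift (e.det : (VV φ) [⋀^Fin n]→ₗ[L] L).toMultilinearMap,
    ?_, ?_, ?_⟩
  · -- ω ≠ 0
    intro h0
    have h1 := hA e
    rw [h0] at h1
    have h2 := congrArg (fun x => (Basis.piTensorProduct (fun _ : Fin n => e)).repr x id) h1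
    simp only [map_zero, map_sum, Finsupp.coe_zero, Pi.zero_apply, Finsupp.finsetSum_apply] at h2
    rw [Finset.sum_eq_single (1 : Equiv.Perm (Fin n))] at h2
    · rw [Equiv.Perm.sign_one, one_smul, Basis.piTensorProduct_repr_tprod_apply] at h2
      simp at h2
    · intro σ _ hσ
      obtain ⟨i, hi⟩ : ∃ i, σ i ≠ i := by
        by_contra hcon
        push Not at hcon
        exact hσ (Equiv.ext hcon)
      rw [Units.smul_def, map_zsmul, Finsupp.smul_apply, Basis.piTensorProduct_repr_tprod_apply,
        Finset.prod_eq_zero (Finset.mem_univ i), smul_zero]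
      rw [Basis.repr_self, Finsupp.single_apply, if_neg]
      exact hi
    · intro h
      exact absurd (Finset.mem_univ _) h
  · intro h0
    have h1 := congrArg (fun f : (⨂[L] _ : Fin n, VV φ) →ₗ[L] L => f (PiTensorProduct.tprod L e)) h0
    simp only [PiTensorProduct.lift.tprod, LinearMap.zero_apply] at h1
    have h2 : e.det e = 0 := h1
    rw [Basis.det_self] at h2
    exact one_ne_zero h2
  · intro w
    have h1 : Rn s = (LinearMap.toSpanSingleton L _ (A e)).comp
        (PiTensorProduct.lift (e.det : (VV φ) [⋀^Fin n]→ₗ[L] L).toMultilinearMap) := by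
      apply PiTensorProduct.ext
      ext v
      change Rn s (PiTensorProduct.tprod L v) =
        (PiTensorProduct.lift (e.det : (VV φ) [⋀^Fin n]→ₗ[L] L).toMultilinearMap)
          (PiTensorProduct.tprod L v) • A e
      rw [hs, hdet, PiTensorProduct.lift.tprod]
      rfl
    rw [h1]
    rfl

end PER
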