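import Mathlib

/-! # Module P6: an algebra with an element of rank one is split -/

set_option autoImplicit false

namespace PER
open Module
open scoped TensorProduct

/-- The base change of `R` is bijective when a basis is mapped to a basis. -/
theorem P6_inj {F L B E : Type} [Field F] [Field L] [Algebra F L] [AddCommGroup B]
    [Module F B] [AddCommGroup E] [Module F E] [Module L E] [IsScalarTower F L E]
    (R : B →ₗ[F] E) {ι : Type} (b : Basis ι F B) (b' : Basis ι L E)
    (hb : ∀ i, b' i = R (b i)) : Function.Injective (R.liftBaseChange L) := by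
  have h : R.liftBaseChange L = ((b.baseChange L).equiv b' (Equiv.refl ι)).toLinearMap := by
    apply (b.baseChange L).ext
    intro i
    rw [Basis.baseChange_apply, LinearMap.liftBaseChange_tmul, one_smul]
    have := (b.baseChange L).equiv_apply i b' (Equiv.refl ι)
    rw [Basis.baseChange_apply] at this
    rw [LinearEquiv.coe_coe, this, Equiv.refl_apply, hb]
  rw [h]
  exact ((b.baseChange L).equiv b' (Equiv.refl ι)).injective

/-- If an `F`-basis of `B` is mapped to an `L`-basis of `E` then linearly independent families are
mapped to linearly independent families. -/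
theorem indep_of_basis {F L B E : Type} [Field F] [Field L] [Algebra F L] [AddCommGroup B]
    [Module F B] [AddCommGroup E] [Module F E] [Module L E] [IsScalarTower F L E]
    (R : B →ₗ[F] E) {ι : Type} [Finite ι] (b : Basis ι F B) (b' : Basis ι L E)
    (hb : ∀ i, b' i = R (b i)) {κ : Type} [Finite κ] (x : κ → B) (hx : LinearIndependent F x) :
    LinearIndependent L (fun i => R (x i)) := by
  have h1 := Module.Flat.linearIndependent_one_tmul (S := L) hx
  have h2 := h1.map' (R.liftBaseChange L) (LinearMap.ker_eq_bot.2 (P6_inj R b b' hb))
  have h3 : (R.liftBaseChange L) ∘ (fun i => (1 : L) ⊗ₜ[F] x i) = fun i => R (x i) := by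
    funext i
    simp
  rwa [h3] at h2

/-- Let `B` be an `F`-algebra acting `L`-linearly on `W` such that an `F`-basis of `B` becomes an
`L`-basis of `End_L(W)`, and suppose some `s ∈ B` acts with rank one: `R s w = l w • ω`.  Then
`B ≅ M_N(F)`, `N = dim_L W`.
Proof.  `W₀ = {R b ω : b ∈ B}` is an `F`-subspace of `W` stable under `B`.  If `wᵢ = R bᵢ ω` are
independent over `F` then so are the `bᵢ s` (`R (bᵢ s) = l(·) wᵢ`), so the `R (bᵢ s)` are
independent over `L` (`indep_of_basis`), so the `wᵢ` are independent over `L`.  The `L`-span of `W₀`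
is `End_L(W) ω = W`.  Hence `dim_F W₀ = N`.  `B → End_F(W₀)` is injective (an operator killing
`W₀` kills `W`; `R` is injective) and both sides have dimension `N²`. -/
theorem split_of_rank_one {F L B W : Type} [Field F] [Field L] [Algebra F L] [Ring B]
    [Algebra F B] [AddCommGroup W] [Module L W] [Module F W] [IsScalarTower F L W]
    [SMulCommClass L F W] [FiniteDimensional L W] (R : B →ₐ[F] Module.End L W)
    {ι : Type} [Finite ι] (b : Basis ι F B) (b' : Basis ι L (Module.End L W))
    (hb : ∀ i, b' i = R (b i)) (s : B) (ω : W) (l : W →ₗ[L] L) (hω : ω ≠ 0) (hl : l ≠ 0)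
    (hs : ∀ w, R s w = l w • ω) :
    Nonempty (B ≃ₐ[F] Matrix (Fin (finrank L W)) (Fin (finrank L W)) F) := by
  classical
  have : Fintype ι := Fintype.ofFinite ι
  have hRinj : Function.Injective R := by
    rw [injective_iff_map_eq_zero]
    intro z hz
    by_contra hne
    have h1 : LinearIndependent F (fun _ : Unit => z) :=
      linearIndependent_unique_iff.2 hne
    have h2 := indep_of_basis R.toLinearMap b b' hb _ h1
    exact h2.ne_zero () hz
  have : Module.Finite F B := Module.Finite.of_basis b
  obtain ⟨w1, hw1⟩ : ∃ w, l w ≠ 0 := by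
    by_contra hcon
    push Not at hcon
    exact hl (LinearMap.ext hcon)
  -- the evaluation at ω
  let ev : B →ₗ[F] W :=
    { toFun := fun x => R x ω
      map_add' := fun x y => by rw [map_add, LinearMap.add_apply]
      map_smul' := fun c x => by
        rw [map_smul]
        rfl }
  have hev : ∀ x, ev x = R x ω := fun _ => rfl
  set W₀ : Submodule F W := LinearMap.range ev with hW₀
  have hstab : ∀ x : B, ∀ w ∈ W₀, R x w ∈ W₀ := by
    rintro x w ⟨y, rfl⟩
    refine ⟨x * y, ?_⟩
    rw [hev, hev, map_mul]
    rfl
  -- the action on W₀
  let ρ : B →ₐ[F] Module.End F W₀ :=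
    { toFun := fun x =>
        { toFun := fun w => ⟨R x w, hstab x w w.2⟩
          map_add' := fun v w => Subtype.ext (by simp)
          map_smul' := fun c w => Subtype.ext (by
            simp only [Submodule.coe_smul, RingHom.id_apply]
            rw [← IsScalarTower.algebraMap_smul L c (w : W), map_smul,
              IsScalarTower.algebraMap_smul]) }
      map_one' := by
        ext w
        simp
      map_mul' := fun x y => by
        ext w
        simp
      map_zero' := by
        ext w
        simp
      map_add' := fun x y => by
        ext w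
        simp
      commutes' := fun c => by
        ext w
        simp only [AlgHom.commutes, LinearMap.coe_mk, AddHom.coe_mk]
        rfl }
  have hρ : ∀ x (w : W₀), ((ρ x w : W₀) : W) = R x w := fun _ _ => rfl
  -- independence
  have hind : ∀ {m : ℕ} (w : Fin m → W₀), LinearIndependent F w →
      LinearIndependent L (fun i => (w i : W)) := by
    intro m w hw
    have hx : ∀ i, ∃ x, R x ω = (w i : W) := fun i => (w i).2
    choose x hx using hx
    have hRx : ∀ i v, R (x i * s) v = l v • (w i : W) := by
      intro i v
      rw [map_mul, Module.End.mul_apply, hs, map_smul, hx]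
    have hxs : LinearIndependent F (fun i => x i * s) := by
      rw [Fintype.linearIndependent_iff]
      intro c hc
      have h1 : R (∑ i, c i • (x i * s)) w1 = 0 := by rw [hc, map_zero, LinearMap.zero_apply]
      rw [map_sum, LinearMap.sum_apply] at h1
      have h2 : ∑ i, c i • (l w1 • (w i : W)) = 0 := by
        rw [← h1]
        refine Finset.sum_congr rfl (fun i _ => ?_)
        rw [map_smul, ← hRx i w1]
        rfl
      have h3 : l w1 • ∑ i, c i • (w i : W) = 0 := by
        rw [Finset.smul_sum, ← h2]
        refine Finset.sum_congr rfl (fun i _ => ?_)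
        rw [smul_comm]
      have h4 : ∑ i, c i • (w i : W) = 0 := (smul_eq_zero.1 h3).resolve_left hw1
      have h5 : ∑ i, c i • w i = 0 := by
        apply Subtype.ext
        rw [Submodule.coe_sum]
        simpa using h4
      exact Fintype.linearIndependent_iff.1 hw c h5
    have hL := indep_of_basis R.toLinearMap b b' hb _ hxs
    rw [Fintype.linearIndependent_iff]
    intro a ha
    apply Fintype.linearIndependent_iff.1 hL a
    ext v
    rw [LinearMap.sum_apply, LinearMap.zero_apply]
    have : ∑ i, a i • (l v • (w i : W)) = 0 := by
      have h6 : l v • ∑ i, a i • (w i : W) = 0 := by rw [ha, smul_zero]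
      rw [← h6, Finset.smul_sum]
      refine Finset.sum_congr rfl (fun i _ => ?_)
      rw [smul_comm]
    rw [← this]
    refine Finset.sum_congr rfl (fun i _ => ?_)
    rw [LinearMap.smul_apply, AlgHom.toLinearMap_apply, hRx]
  -- span
  have hspan : Submodule.span L (W₀ : Set W) = ⊤ := by
    rw [eq_top_iff]
    intro w _
    have hf : ∃ f : Module.Dual L W, f ω ≠ 0 := by
      by_contra hcon
      push Not at hcon
      exact hω ((Module.forall_dual_apply_eq_zero_iff L ω).1 hcon)
    obtain ⟨f, hf⟩ := hf
    have h1 : ∀ T : Module.End L W, T ω ∈ Submodule.span L (W₀ : Set W) := by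
      intro T
      rw [← b'.sum_repr T, LinearMap.sum_apply]
      refine Submodule.sum_mem _ (fun i _ => ?_)
      rw [LinearMap.smul_apply, hb]
      exact Submodule.smul_mem _ _ (Submodule.subset_span ⟨b i, rfl⟩)
    have h2 := h1 ((f ω)⁻¹ • f.smulRight w)
    rw [LinearMap.smul_apply, LinearMap.smulRight_apply, smul_smul, inv_mul_cancel₀ hf,
      one_smul] at h2
    exact h2
  -- dimension of W₀
  have hdim : finrank F W₀ = finrank L W := by
    let c := Module.finBasis F W₀
    have h1 := hind c c.linearIndependent
    have h2 : Submodule.span L (Set.range (fun i => (c i : W))) = ⊤ := by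
      rw [eq_top_iff, ← hspan, Submodule.span_le]
      intro w hw
      have h3 : (⟨w, hw⟩ : W₀) = ∑ i, c.repr ⟨w, hw⟩ i • c i := (c.sum_repr _).symm
      have h4 : w = ∑ i, c.repr ⟨w, hw⟩ i • (c i : W) := by
        have h5 := congrArg (Subtype.val) h3
        rw [Submodule.coe_sum] at h5
        exact h5
      rw [SetLike.mem_coe, h4]
      refine Submodule.sum_mem _ (fun i _ => ?_)
      rw [← IsScalarTower.algebraMap_smul L]
      exact Submodule.smul_mem _ _ (Submodule.subset_span ⟨i, rfl⟩)
    have h5 := Module.finrank_eq_card_basis (Basis.mk h1 h2.ge)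
    rw [h5]
    simp
  have hρinj : Function.Injective ρ := by
    rw [injective_iff_map_eq_zero]
    intro x hx
    apply hRinj
    rw [map_zero]
    have h1 : ∀ w ∈ W₀, R x w = 0 := by
      intro w hw
      rw [← hρ x ⟨w, hw⟩, hx]
      rfl
    ext w
    have hw : w ∈ Submodule.span L (W₀ : Set W) := by rw [hspan]; trivial
    rw [LinearMap.zero_apply]
    induction hw using Submodule.span_induction with
    | mem w hw => exact h1 w hw
    | zero => rw [map_zero]
    | add v w _ _ hv hw => rw [map_add, hv, hw, add_zero]
    | smul a w _ hw => rw [map_smul, hw, smul_zero]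
  have hfr : finrank F B = finrank F (Module.End F W₀) := by
    rw [Module.finrank_linearMap, hdim, Module.finrank_eq_card_basis b,
      ← Module.finrank_eq_card_basis b', Module.finrank_linearMap]
  have hρsurj : Function.Surjective ρ := by
    have h := (LinearMap.injective_iff_surjective_of_finrank_eq_finrank hfr
      (f := ρ.toLinearMap)).1 hρinj
    exact h
  have e1 : B ≃ₐ[F] Module.End F W₀ := AlgEquiv.ofBijective ρ ⟨hρinj, hρsurj⟩
  have c : Basis (Fin (finrank L W)) F W₀ := Module.finBasisOfFinrankEq F W₀ hdim
  exact ⟨e1.trans (algEquivMatrix c)⟩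

end PER
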