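import Pool.Agent.H24.PER.P5
import Pool.Agent.H24.PER.P6

/-! # Module P7: the `n`-th tensor power of a division algebra of odd degree `n` is split -/

set_option autoImplicit false

namespace PER
open Module
open scoped TensorProduct

variable {F D L : Type} [Field F] [DivisionRing D] [Algebra F D] [Field L] [Algebra F L]

theorem tensor_power_split
    (hc : ∀ x : D, (∀ y, x * y = y * x) → ∃ f : F, algebraMap F D f = x)
    (φ : L →ₐ[F] D) (n : ℕ) (hn : Odd n) (hD : finrank F D = n ^ 2) (hL : finrank F L = n) :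
    ∃ N : ℕ, Nonempty ((⨂[F] _ : Fin n, D) ≃ₐ[F] Matrix (Fin N) (Fin N) F) := by
  have hn0 : n ≠ 0 := fun h => by rw [h] at hn; exact absurd hn (by decide)
  obtain ⟨Rn, hR⟩ := exists_action φ n
  obtain ⟨b, B, hb⟩ := exists_tensor_bases hc φ n hn0 hD hL Rn hR
  obtain ⟨m, a, c, hf⟩ := exists_flip hc φ n hn hD hL
  obtain ⟨s, ω, l, hω, hl, hs⟩ := antisym_mem φ n (finrank_VV φ n hn0 hD hL) hn0 Rn
    (perm_mem φ n Rn hR a c hf)
  have hfin : FiniteDimensional L (VV φ) := by
    apply FiniteDimensional.of_finrank_pos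
    rw [finrank_VV φ n hn0 hD hL]
    omega
  exact ⟨_, split_of_rank_one Rn b B hb s ω l hω hl hs⟩

end PER
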