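import Pool.Agent.H24.NCL.B2
import Pool.Agent.H24.NCL.B4

/-! # Module P8: a subfield of degree 9 of `D` -/

set_option autoImplicit false

namespace NCP
open HahnSeries

/-- The algebra structure of `M((t))` over `k((t))`. -/
noncomputable def hAlg (k M : Type) [Field k] [Field M] [Algebra k M] :
    Algebra (HahnSeries ℤ k) (HahnSeries ℤ M) := (hmap (algebraMap k M)).toAlgebra

/-- `[M((t)) : k((t))] = [M : k]` (finite), coefficientwise in a basis. -/
theorem finrank_hAlg (k M : Type) [Field k] [Field M] [Algebra k M] [FiniteDimensional k M] :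
    @Module.finrank (HahnSeries ℤ k) (HahnSeries ℤ M) _ _ (hAlg k M).toModule =
      Module.finrank k M := by
  let := hAlg k M
  let b := Module.finBasis k M
  let L : HahnSeries ℤ M →ₗ[HahnSeries ℤ k] (Fin (Module.finrank k M) → HahnSeries ℤ k) :=
    { toFun := fun x i => DD4_map (b.coord i) x
      map_add' := fun x y => by
        funext i
        rw [map_add, Pi.add_apply]
      map_smul' := fun f x => by
        funext i
        have h : f • x = hmap (algebraMap k M) f * x := by
          rw [Algebra.smul_def]
          rfl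
        rw [h, DD4_map_mul, Pi.smul_apply, smul_eq_mul, RingHom.id_apply] }
  have hL : ∀ x i, L x i = DD4_map (b.coord i) x := fun _ _ => rfl
  have hinj : Function.Injective L := by
    rw [injective_iff_map_eq_zero]
    intro x hx
    ext n
    rw [HahnSeries.coeff_zero]
    apply b.ext_elem
    intro i
    have h1 := congrFun hx i
    rw [hL] at h1
    have h2 := congrArg (fun y : HahnSeries ℤ k => y.coeff n) h1
    simp only [DD4_map_coeff, Pi.zero_apply, HahnSeries.coeff_zero,
      Module.Basis.coord_apply] at h2
    rw [h2, map_zero, Finsupp.zero_apply]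
  have hsurj : Function.Surjective L := by
    intro g
    obtain ⟨y, hy⟩ := DD4_single_exists b g
    refine ⟨y, ?_⟩
    funext i
    exact hy i
  have e := LinearEquiv.ofBijective L ⟨hinj, hsurj⟩
  rw [e.finrank_eq, Module.finrank_fintype_fun_eq_card, Fintype.card_fin]

theorem P8_aux {k A C : Type} [Field k] [Ring A] [IsDomain A] [Algebra k A]
    [FiniteDimensional k A] (hc : ∀ x y : A, x * y = y * x) [Ring C] [Algebra k C]
    (φ : A →ₐ[k] C) : ∃ (M : Type) (_ : Field M) (_ : Algebra k M) (_ : M →ₐ[k] C),
      Module.finrank k M = Module.finrank k A := by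
  let : CommRing A := { (inferInstance : Ring A) with mul_comm := hc }
  let : Field A := fieldOfFiniteDimensional k A
  exact ⟨A, inferInstance, inferInstance, φ, rfl⟩

variable {k K C : Type} [Field k] [Field K] [DivisionRing C] [Algebra k K] [Algebra K C]
    [Algebra k C] [IsScalarTower k K C]

/-- A commutative subfield `M` of `C` with `[M : k] = 9`: `M = Algebra.adjoin K {x}`, `x` not
central (`adjoin_comm`, `comm_dim'`, `d.dk`). -/
theorem exists_subfield_C (d : CD k K C) : ∃ (M : Type) (_ : Field M) (_ : Algebra k M)
    (_ : M →ₐ[k] C), Module.finrank k M = 9 := by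
  have hfin := adj_fin d
  have hex : ∃ x : C, ¬ ∀ y, x * y = y * x := by
    by_contra hcon
    push Not at hcon
    have : Module.finrank K C ≤ 1 := by
      apply finrank_le_one (1 : C)
      intro w
      obtain ⟨c, hc⟩ := (d.cK w).1 (hcon w)
      exact ⟨c, by rw [← hc, Algebra.smul_def, mul_one]⟩
    rw [d.dK] at this
    omega
  obtain ⟨x, hx⟩ := hex
  have hcomm := adjoin_comm (K := K) ({x} : Set C) (by
    intro a ha b hb
    rw [Set.mem_singleton_iff] at ha hb
    rw [ha, hb])
  have h3 : Module.finrank K (Algebra.adjoin K ({x} : Set C)) = 3 :=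
    comm_dim' d _ hcomm ⟨x, Algebra.subset_adjoin rfl, hx⟩
  have h9 : Module.finrank k (Algebra.adjoin K ({x} : Set C)) = 9 := by
    have := Module.finrank_mul_finrank k K (Algebra.adjoin K ({x} : Set C))
    rw [h3, d.dk] at this
    exact this.symm
  have hfd : FiniteDimensional k (Algebra.adjoin K ({x} : Set C)) :=
    Module.finite_of_finrank_pos (by rw [h9]; norm_num)
  obtain ⟨M, i1, i2, φ, hM⟩ := P8_aux (k := k)
    (fun a b => Subtype.ext (hcomm a a.2 b b.2))
    ((Algebra.adjoin K ({x} : Set C)).val.restrictScalars k)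
  exact ⟨M, i1, i2, φ, hM.trans h9⟩

/-- `M((t)) → C((t)) → D`. -/
theorem exists_subfield_D (d : CD k K C) : ∃ (L : Type) (_ : Field L) (_ : Algebra (FF k) L)
    (_ : L →ₐ[FF k] DD d), Module.finrank (FF k) L = 9 := by
  obtain ⟨M, _, _, φ, hM⟩ := exists_subfield_C d
  have hfd : FiniteDimensional k M := Module.finite_of_finrank_pos (by rw [hM]; norm_num)
  let := hAlg k M
  refine ⟨HahnSeries ℤ M, inferInstance, hAlg k M, ?_, (finrank_hAlg k M).trans hM⟩
  exact
    { toRingHom := (Cyc3.inc (ddD d)).comp (hmap (φ : M →+* C))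
      commutes' := fun f => by
        rw [algebraMap_DD]
        show Cyc3.inc (ddD d) (hmap (φ : M →+* C) (hmap (algebraMap k M) f)) = FtoD d f
        have h : hmap (φ : M →+* C) (hmap (algebraMap k M) f) = hmap (algebraMap k C) f := by
          ext n
          rw [hmap_coeff, hmap_coeff, hmap_coeff]
          exact φ.commutes _
        rw [h]
        rfl }

end NCP
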