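import Pool.Agent.H24.NCL.B6
import Pool.Agent.H24.PER.P7
import Pool.Agent.H24.PER.P8

/-! # Final assembly with the period -/

set_option autoImplicit false

namespace NCP
open scoped TensorProduct

theorem main_period : ∃ (F : Type) (_ : Field F) (_ : CharP F 3) (D : Type)
    (_ : DivisionRing D) (_ : Algebra F D), Algebra.IsCentral F D ∧ Module.finrank F D = 9 ^ 2 ∧
      (∃ N : ℕ, Nonempty ((⨂[F] _ : Fin 9, D) ≃ₐ[F] Matrix (Fin N) (Fin N) F)) ∧
      ¬ IsCrossedProduct F D 9 := by
  obtain ⟨k, K, C, _, _, _, _, _, _, _, ⟨d⟩⟩ := exists_cd_all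
  have h3 : (3 : k) = 0 := by
    have h := d.three
    apply (algebraMap k C).injective
    rw [map_ofNat, map_zero, h]
  have h3F : (3 : FF k) = 0 := by
    have : (HahnSeries.C (3 : k) : FF k) = 0 := by rw [h3, map_zero]
    rwa [map_ofNat] at this
  have hch : CharP (FF k) 3 := by
    have : ((3 : ℕ) : FF k) = 0 := by exact_mod_cast h3F
    obtain ⟨p, hp⟩ := CharP.exists (FF k)
    have hd : p ∣ 3 := (CharP.cast_eq_zero_iff (FF k) p 3).1 this
    rcases (Nat.dvd_prime Nat.prime_three).1 hd with h1 | h1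
    · exact absurd h1 (CharP.char_ne_one (FF k) p)
    · exact h1 ▸ hp
  refine ⟨FF k, inferInstance, hch, DD d, inferInstance, instAlgDD d, dd_isCentral d, ?_, ?_, ?_⟩
  · rw [dd_finrank d]; norm_num
  · obtain ⟨L, _, _, φ, hL⟩ := exists_subfield_D d
    exact PER.tensor_power_split (F := FF k) (D := DD d) (fun x hx => dd_center d x hx) φ 9
      (by decide) (by rw [dd_finrank d]; norm_num) hL
  · intro hcp
    obtain ⟨L, _, _, φ, _, _, h9⟩ := torus_galois 9 hcp
    exact step_one d φ h9

end NCP
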