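import Mathlib

/-! # A division algebra `D` as a vector space over a subfield `L` acting on the right -/

set_option autoImplicit false

namespace PER
open scoped TensorProduct

variable {F D L : Type} [Field F] [DivisionRing D] [Algebra F D] [Field L] [Algebra F L]

/-- `D`, considered as an `L`-vector space by `l • x = x * φ l`. -/
def VV (_φ : L →ₐ[F] D) : Type := D

noncomputable instance (φ : L →ₐ[F] D) : AddCommGroup (VV φ) := inferInstanceAs (AddCommGroup D)
noncomputable instance (φ : L →ₐ[F] D) : Module F (VV φ) := inferInstanceAs (Module F D)

noncomputable instance (φ : L →ₐ[F] D) : Module L (VV φ) where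
  smul l x := (show D from x) * φ l
  one_smul x := by
    change (show D from x) * φ 1 = x
    rw [map_one, mul_one]
  mul_smul a b x := by
    change (show D from x) * φ (a * b) = (show D from x) * φ b * φ a
    rw [mul_comm a b, map_mul, mul_assoc]
  smul_zero a := by
    change (0 : D) * φ a = 0
    rw [zero_mul]
  smul_add a x y := add_mul (show D from x) (show D from y) (φ a)
  add_smul a b x := by
    change (show D from x) * φ (a + b) = (show D from x) * φ a + (show D from x) * φ b
    rw [map_add, mul_add]
  zero_smul x := by
    change (show D from x) * φ 0 = 0
    rw [map_zero, mul_zero]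

theorem smul_def (φ : L →ₐ[F] D) (l : L) (x : VV φ) : l • x = (show D from x) * φ l := rfl

instance (φ : L →ₐ[F] D) : IsScalarTower F L (VV φ) where
  smul_assoc a l x := by
    change (show D from x) * φ (a • l) = a • ((show D from x) * φ l)
    rw [map_smul, mul_smul_comm]

instance (φ : L →ₐ[F] D) : SMulCommClass F L (VV φ) where
  smul_comm a l x := by
    change a • ((show D from x) * φ l) = (a • (show D from x)) * φ l
    rw [smul_mul_assoc]

instance (φ : L →ₐ[F] D) : SMulCommClass L F (VV φ) := SMulCommClass.symm _ _ _

/-- Left multiplication, an `L`-linear operator. -/
noncomputable def lm (φ : L →ₐ[F] D) : D →ₐ[F] Module.End L (VV φ) where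
  toFun d :=
    { toFun := fun x => (d * (show D from x) : D)
      map_add' := fun x y => mul_add d (show D from x) (show D from y)
      map_smul' := fun l x => (mul_assoc d (show D from x) (φ l)).symm }
  map_one' := by
    ext x
    exact one_mul (show D from x)
  map_mul' a b := by
    ext x
    exact mul_assoc a b (show D from x)
  map_zero' := by
    ext x
    exact zero_mul (show D from x)
  map_add' a b := by
    ext x
    exact add_mul a b (show D from x)
  commutes' r := by
    ext x
    change algebraMap F D r * (show D from x) = r • (show D from x)
    rw [Algebra.smul_def]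

theorem lm_apply (φ : L →ₐ[F] D) (d : D) (x : VV φ) : lm φ d x = (d * (show D from x) : D) := rfl

end PER
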